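import Pool.Agent.H38R3.MH.Final

set_option autoImplicit false

namespace Pool.Agent.Results.MP_d0a708_lc.TwoHeadsQuadratic

open Pool.Agent.H867R4

/-- **A tight quadratic lower bound for two-head automata.**  There is a language `L` over four letters
which is accepted by a deterministic two-way pushdown automaton with one input head, such that for every
finite set `Q` of states there is `c > 0` with the following property, for arbitrarily large `n`.  Let `M` be
a nondeterministic two-way two-head finite automaton with state set `Q` which is correct on the words of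
length `n`.  Then some `w ∈ L` of length `n` has the property that

* every accepting computation on `w`, split in any way into `I` pieces each of which has at most `n` steps
  or moves at most one head, has `I ≥ c n`;
* every accepting computation on `w` passes through at least `c n²` different configurations, that is,
  through a constant fraction of all `|Q| (n + 2)²` configurations; in particular it has at least
  `c n² - 1` steps. -/
theorem result : ∃ L : Set (List (Fin 4)), Pool.Agent.H541R2.TwoDPDA L ∧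
    ∀ (Q : Type) (_ : Fintype Q), ∃ c : ℝ, 0 < c ∧ ∀ n₀ : ℕ, ∃ n : ℕ, n₀ ≤ n ∧
      ∀ M : NMach (Fin 4) 2 Q, (∀ w : List (Fin 4), w.length = n → (w ∈ L ↔ M.Accepts w)) →
        ∃ w : List (Fin 4), w.length = n ∧ w ∈ L ∧
          (∀ (T I : ℕ) (ρ : ℕ → NCfg 2 Q), M.AccRun w T ρ → Pieces n T I ρ → c * (n : ℝ) ≤ I) ∧
          (∀ (T : ℕ) (ρ : ℕ → NCfg 2 Q), M.AccRun w T ρ →
            c * (n : ℝ) ^ 2 ≤ (ρ '' {t | t ≤ T}).ncard ∧ c * (n : ℝ) ^ 2 ≤ T) := by
  refine ⟨Pool.Agent.H541R2.theLang, Pool.Agent.H541R2.theLang_twoDPDA, fun Q _ => ?_⟩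
  obtain ⟨c, hc, h⟩ := Pool.Agent.H38R3.MH.lower_bound2 Q
  refine ⟨c / 2, by positivity, fun n₀ => ?_⟩
  obtain ⟨n₁, hn₁⟩ : ∃ n₁ : ℕ, 2 / c ≤ (n₁ : ℝ) := exists_nat_ge _
  obtain ⟨n, hn, hM⟩ := h (max (max n₀ n₁) 1)
  have hn0 : n₀ ≤ n := le_trans (le_trans (le_max_left _ _) (le_max_left _ _)) hn
  have hn1 : n₁ ≤ n := le_trans (le_trans (le_max_right _ _) (le_max_left _ _)) hn
  have hn2 : 1 ≤ n := le_trans (le_max_right _ _) hn
  refine ⟨n, hn0, fun M hacc => ?_⟩
  obtain ⟨w, hw1, hw2, hw3⟩ := hM M hacc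
  have hnpos : (0 : ℝ) < n := by positivity
  have hbig : 2 ≤ c * (n : ℝ) := by
    have h1 : 2 / c ≤ (n : ℝ) := hn₁.trans (by exact_mod_cast hn1)
    rw [div_le_iff₀ hc] at h1
    linarith
  have hT : ∀ (T : ℕ) (ρ : ℕ → NCfg 2 Q), M.AccRun w T ρ → c / 2 * (n : ℝ) ^ 2 ≤ T := by
    intro T ρ hρ
    have hP : Pieces n T (T / n + 1) ρ := by
      refine ⟨fun j => min (j * n) T, by simp, ?_, fun j _ => ⟨?_, Or.inl ?_⟩⟩
      · apply min_eq_right
        have := Nat.lt_mul_of_div_lt (Nat.lt_succ_self (T / n)) (by omega)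
        exact this.le
      · exact min_le_min_right _ (Nat.mul_le_mul_right _ (Nat.le_succ _))
      · have e : (j + 1) * n = j * n + n := by ring
        simp only [e]
        omega
    have h1 := hw3 T _ ρ hρ hP
    push_cast at h1
    have h2 : ((T / n : ℕ) : ℝ) ≤ (T : ℝ) / n := Nat.cast_div_le
    have h3 : c / 2 * (n : ℝ) ≤ (T : ℝ) / n := by linarith
    rw [le_div_iff₀ hnpos] at h3
    calc c / 2 * (n : ℝ) ^ 2 = c / 2 * (n : ℝ) * n := by ring
      _ ≤ T := h3
  refine ⟨w, hw1, hw2, fun T I ρ hρ hI => ?_, fun T ρ hρ => ⟨?_, hT T ρ hρ⟩⟩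
  · have := hw3 T I ρ hρ hI
    have h2 : 0 ≤ c * (n : ℝ) := by positivity
    linarith
  · obtain ⟨T', ρ', hρ', hle⟩ := Pool.Agent.H38R3.MH.short_run hρ
    have h1 := hT T' ρ' hρ'
    have h2 : (T' : ℝ) + 1 ≤ (ρ '' {t | t ≤ T}).ncard := by exact_mod_cast hle
    linarith

end Pool.Agent.Results.MP_d0a708_lc.TwoHeadsQuadratic
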